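import Pool.Agent.H87.CPG.Main

set_option autoImplicit false

namespace Pool.Agent.Results.MP_71c0cb_co.CirclePackingPieces

open Pool.Agent.H87.CPG

/-- Builder wins the `H`-subgraph circle packing game for every graph `H` of the smallest class
which contains the Apollonian networks with at most seven vertices and three networks with eight
vertices, and which is closed under subgraphs, under disjoint unions and under gluing wheels and
triangular prisms along edges; also if the circles of a finite packing `P₀` are already there, in
particular if Spoiler makes the first move. -/
theorem result {V : Type} (H : SimpleGraph V) (hH : Cls H) (P₀ : List Circ)
    (hP₀ : P₀.Pairwise fun C D => Disjoint C.interior D.interior) : BuilderWins H P₀ :=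
  builderWins_of_cls hH P₀ hP₀

end Pool.Agent.Results.MP_71c0cb_co.CirclePackingPieces
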